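import Mathlib.Algebra.BigOperators.Fin
import Mathlib.Algebra.CharP.Defs
import Mathlib.Algebra.Notation.Lemmas
import Mathlib.Tactic.IntervalCases
import Mathlib.Tactic.LinearCombination
import Mathlib.Topology.Sheaves.Presheaf
import Mathlib.Algebra.Order.Ring.Star
import Mathlib.Analysis.Normed.Field.Basic
import Mathlib.Tactic.Bound
import Mathlib.Algebra.Order.Star.Real
import Mathlib.RingTheory.PiTensorProduct
import Mathlib.Tactic.Algebra.Basic

-- ======== part 0: formerly Pool.Agent.MP_0ea322_co.Core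
section MrgPart0

/-!
# The counting argument for covers of the triangular grid in the plane
-/

namespace Pool.Agent.MP_0ea322_co

open Finset

/-- Points of the grid in homogeneous coordinates. -/
def pts (n : ℕ) : Finset (Fin 3 → ℕ) :=
  (Fintype.piFinset fun _ => range n).filter fun p => p 0 + p 1 + p 2 + 1 = n

lemma mem_pts {n : ℕ} {p : Fin 3 → ℕ} : p ∈ pts n ↔ p 0 + p 1 + p 2 + 1 = n := by
  simp only [pts, mem_filter, Fintype.mem_piFinset, mem_range, and_iff_right_iff_imp]
  intro h i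
  fin_cases i <;> simp <;> omega

lemma sum_rot (p : Fin 3 → ℕ) (i : Fin 3) : p i + p (i + 1) + p (i + 2) = p 0 + p 1 + p 2 := by
  fin_cases i <;> simp <;> omega

/-- The combinatorial shadow of a line that is not parallel to a side. -/
def Skew (l : Set (Fin 3 → ℕ)) : Prop :=
  (∀ p ∈ l, ∀ q ∈ l, ∀ i, p i = q i → p = q) ∧
    ∃ i, ∀ p ∈ l, ∀ q ∈ l, p (i + 1) < q (i + 1) → p (i + 2) < q (i + 2)

section

variable (n k : ℕ) (G : ℕ → ℝ) (m : Fin 3 → ℕ → ℕ)

/-- The first level whose multiplicity is at most `s`. -/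
noncomputable def alpha (i : Fin 3) (s : ℕ) : ℕ :=
  Nat.find (⟨n, Or.inl le_rfl⟩ : ∃ c, n ≤ c ∨ m i c ≤ s)

/-- Increments of `G`. -/
def inc (s : ℕ) : ℝ := G (s + 1) - G s

/-- The deficiency of a point. -/
def defi (p : Fin 3 → ℕ) : ℕ := k - (m 0 (p 0) + m 1 (p 1) + m 2 (p 2))

/-- The charge of a point in direction `i`. -/
noncomputable def charge (i : Fin 3) (p : Fin 3 → ℕ) : ℝ :=
  ∑ s ∈ (range k).filter (fun s => alpha n m i s = p i),
    inc G s * ((k - s - m (i + 1) (p (i + 1)) - m (i + 2) (p (i + 2)) : ℕ) : ℝ)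

variable {n k G m}

lemma alpha_le (i : Fin 3) (s : ℕ) : alpha n m i s ≤ n := Nat.find_min' _ (Or.inl le_rfl)

lemma lt_of_lt_alpha {i : Fin 3} {s c : ℕ} (h : c < alpha n m i s) : s < m i c := by
  have := Nat.find_min _ h
  omega

lemma le_of_alpha_lt {i : Fin 3} {s : ℕ} (h : alpha n m i s < n) : m i (alpha n m i s) ≤ s := by
  have := Nat.find_spec (⟨n, Or.inl le_rfl⟩ : ∃ c, n ≤ c ∨ m i c ≤ s)
  unfold alpha at *
  omega

lemma sum_inc (G : ℕ → ℝ) (h0 : G 0 = 0) (u : ℕ) : ∑ s ∈ range u, inc G s = G u := by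
  unfold inc
  rw [Finset.sum_range_sub, h0, sub_zero]

lemma msum_rot (p : Fin 3 → ℕ) (i : Fin 3) :
    m i (p i) + m (i + 1) (p (i + 1)) + m (i + 2) (p (i + 2)) =
      m 0 (p 0) + m 1 (p 1) + m 2 (p 2) := sum_rot (fun t => m t (p t)) i

lemma lt_of_mem_pts {p : Fin 3 → ℕ} (hp : p ∈ pts n) (i : Fin 3) : p i < n := by
  have := mem_pts.1 hp
  have := sum_rot p i
  omega

/-- Each term of the charge is at most the deficiency. -/
lemma term_le {i : Fin 3} {p : Fin 3 → ℕ} (hp : p ∈ pts n) {s : ℕ} (hs : alpha n m i s = p i) :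
    k - s - m (i + 1) (p (i + 1)) - m (i + 2) (p (i + 2)) ≤
      min (defi k m p) (m i (p i) + defi k m p - s) := by
  have h1 := le_of_alpha_lt (m := m) (i := i) (s := s) (hs ▸ lt_of_mem_pts hp i)
  have h2 := msum_rot (m := m) p i
  rw [hs] at h1
  unfold defi
  omega

lemma charge_le (hG : Monotone G) {i : Fin 3} {p : Fin 3 → ℕ} (hp : p ∈ pts n) :
    charge n k G m i p ≤
      (∑ s ∈ (range k).filter (fun s => alpha n m i s = p i), inc G s) * defi k m p := by
  rw [charge, sum_mul]
  refine sum_le_sum fun s hs => mul_le_mul_of_nonneg_left ?_ (sub_nonneg.2 (hG s.le_succ))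
  exact_mod_cast (term_le hp (mem_filter.1 hs).2).trans (min_le_left _ _)

lemma charge_nonneg (hG : Monotone G) (i : Fin 3) (p : Fin 3 → ℕ) : 0 ≤ charge n k G m i p :=
  sum_nonneg fun s _ => mul_nonneg (sub_nonneg.2 (hG s.le_succ)) (Nat.cast_nonneg _)

/-- The charge per covering line. -/
noncomputable def share (n k : ℕ) (G : ℕ → ℝ) (m : Fin 3 → ℕ → ℕ) (i : Fin 3) (p : Fin 3 → ℕ) :
    ℝ := charge n k G m i p / defi k m p

lemma share_le (hG : Monotone G) {i : Fin 3} {p : Fin 3 → ℕ} (hp : p ∈ pts n) :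
    share n k G m i p ≤ ∑ s ∈ (range k).filter (fun s => alpha n m i s = p i), inc G s :=
  div_le_of_le_mul₀ (Nat.cast_nonneg _)
    (sum_nonneg fun s _ => sub_nonneg.2 (hG s.le_succ)) (charge_le hG hp)

/-- Shares of points with distinct `i`-th coordinates, all larger than `c`. -/
lemma sum_share_le (hG : Monotone G) {i : Fin 3} {U : Finset (Fin 3 → ℕ)} (hU : U ⊆ pts n)
    (hinj : ∀ p ∈ U, ∀ q ∈ U, p i = q i → p = q) {V : Finset ℕ}
    (hV : ∀ p ∈ U, ∀ s < k, alpha n m i s = p i → s ∈ V) :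
    ∑ p ∈ U, share n k G m i p ≤ ∑ s ∈ V, inc G s := by
  classical
  refine (sum_le_sum fun p hp => share_le hG (hU hp)).trans ?_
  rw [← sum_biUnion]
  · refine sum_le_sum_of_subset_of_nonneg (fun s hs => ?_)
      fun s _ _ => sub_nonneg.2 (hG s.le_succ)
    obtain ⟨p, hp, hs⟩ := mem_biUnion.1 hs
    exact hV p hp s (mem_range.1 (mem_filter.1 hs).1) (mem_filter.1 hs).2
  · intro p hp q hq hne
    rw [Function.onFun, disjoint_left]
    intro s h1 h2
    exact hne (hinj p hp q hq ((mem_filter.1 h1).2.symm.trans (mem_filter.1 h2).2))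

lemma sum_G_eq (G : ℕ → ℝ) (h0 : G 0 = 0) (μ r K : ℕ) (hK : μ + r ≤ K) :
    ∑ u ∈ range r, G (μ + u + 1) = ∑ s ∈ range K, inc G s * ((min r (μ + r - s) : ℕ) : ℝ) := by
  induction r with
  | zero => simp
  | succ r ih =>
    rw [sum_range_succ, ih (by omega), ← sum_inc G h0 (μ + r + 1)]
    have h1 : range (μ + r + 1) = (range K).filter fun s => s < μ + r + 1 := by
      ext s
      simp only [mem_range, mem_filter]
      omega
    rw [h1, sum_filter, ← sum_add_distrib]
    refine sum_congr rfl fun s _ => ?_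
    split_ifs with h
    · have : min (r + 1) (μ + (r + 1) - s) = min r (μ + r - s) + 1 := by omega
      rw [this]
      push_cast
      ring
    · have : min (r + 1) (μ + (r + 1) - s) = min r (μ + r - s) := by omega
      rw [this, add_zero]

/-- The shares in an increasing direction, seen from the first deficient point `p`. -/
lemma first_point (hG : Monotone G) (h0 : G 0 = 0) {i : Fin 3} {U : Finset (Fin 3 → ℕ)}
    (hU : U ⊆ pts n) (hinj : ∀ p ∈ U, ∀ q ∈ U, p i = q i → p = q) {p : Fin 3 → ℕ} (hp : p ∈ U)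
    (hr : 0 < defi k m p) (hmin : ∀ q ∈ U, q ≠ p → p i < q i) :
    (∑ q ∈ U, share n k G m i q) * defi k m p ≤
      ∑ u ∈ range (defi k m p), G (m i (p i) + u + 1) := by
  classical
  have hk : m i (p i) + defi k m p ≤ k := by
    have := msum_rot (m := m) p i
    unfold defi at *
    omega
  rw [sum_G_eq G h0 _ _ k hk, ← add_sum_erase U _ hp, add_mul]
  have h1 : ∑ q ∈ U.erase p, share n k G m i q ≤
      ∑ s ∈ (range k).filter (fun s => s < m i (p i)), inc G s :=
    sum_share_le hG ((erase_subset _ _).trans hU)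
      (fun a ha b hb => hinj a (mem_of_mem_erase ha) b (mem_of_mem_erase hb))
      (fun q hq s hs h => mem_filter.2 ⟨mem_range.2 hs,
        lt_of_lt_alpha (h ▸ hmin q (mem_of_mem_erase hq) (ne_of_mem_erase hq))⟩)
  have hr' : (0 : ℝ) < defi k m p := by exact_mod_cast hr
  have h2 : share n k G m i p * defi k m p ≤ ∑ s ∈ (range k).filter (fun s => ¬ s < m i (p i)),
      inc G s * ((min (defi k m p) (m i (p i) + defi k m p - s) : ℕ) : ℝ) := by
    rw [share, div_mul_cancel₀ _ hr'.ne', charge]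
    refine (sum_le_sum fun s hs => mul_le_mul_of_nonneg_left
      (Nat.cast_le.2 (term_le (hU hp) (mem_filter.1 hs).2)) (sub_nonneg.2 (hG s.le_succ))).trans
      (sum_le_sum_of_subset_of_nonneg (fun s hs => ?_) fun s _ _ =>
        mul_nonneg (sub_nonneg.2 (hG s.le_succ)) (Nat.cast_nonneg _))
    obtain ⟨h3, h4⟩ := mem_filter.1 hs
    have := le_of_alpha_lt (m := m) (i := i) (s := s) (h4 ▸ lt_of_mem_pts (hU hp) i)
    rw [h4] at this
    exact mem_filter.2 ⟨h3, by omega⟩
  rw [← sum_filter_add_sum_filter_not (range k) (fun s => s < m i (p i))]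
  have h3 : (∑ s ∈ (range k).filter (fun s => s < m i (p i)), inc G s) * defi k m p =
      ∑ s ∈ (range k).filter (fun s => s < m i (p i)),
        inc G s * ((min (defi k m p) (m i (p i) + defi k m p - s) : ℕ) : ℝ) := by
    rw [sum_mul]
    refine sum_congr rfl fun s hs => ?_
    have := (mem_filter.1 hs).2
    rw [min_eq_left (by omega)]
  have h4 := mul_le_mul_of_nonneg_right h1 hr'.le
  linarith

/-- A skew line receives total share at most one. -/
lemma line_share (hG : Monotone G) (h0 : G 0 = 0)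
    (hpath : ∀ u v, u + v + 1 ≤ k → G (u + 1) + G (v + 1) + G k ≤ 1) (hk : 0 < k)
    {l : Set (Fin 3 → ℕ)} [DecidablePred (· ∈ l)] (hl : Skew l) :
    ∑ p ∈ (pts n).filter (· ∈ l), ∑ i, share n k G m i p ≤ 1 := by
  classical
  obtain ⟨hinj, i, hmono⟩ := hl
  set U := ((pts n).filter (· ∈ l)).filter fun p => 0 < defi k m p with hUdef
  have hU : U ⊆ pts n := (filter_subset _ _).trans (filter_subset _ _)
  have hUl : ∀ p ∈ U, p ∈ l := fun p hp => (mem_filter.1 (mem_filter.1 hp).1).2
  have h1 : ∑ p ∈ (pts n).filter (· ∈ l), ∑ i, share n k G m i p =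
      ∑ p ∈ U, ∑ i, share n k G m i p := by
    refine (sum_filter_of_ne fun p _ hne => ?_).symm
    by_contra h
    have : defi k m p = 0 := by omega
    exact hne (sum_eq_zero fun i _ => by simp [share, this])
  have h2 : ∀ p, ∑ t, share n k G m t p =
      share n k G m i p + share n k G m (i + 1) p + share n k G m (i + 2) p := fun p => by
    rw [Fin.sum_univ_three]
    fin_cases i <;> simp <;> ring
  rw [h1, sum_congr rfl fun p _ => h2 p, sum_add_distrib, sum_add_distrib]
  have h3 : ∑ p ∈ U, share n k G m i p ≤ G k := by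
    rw [← sum_inc G h0 k]
    exact sum_share_le hG hU (fun p hp q hq => hinj p (hUl p hp) q (hUl q hq) i)
      fun _ _ s hs _ => mem_range.2 hs
  rcases U.eq_empty_or_nonempty with hE | hE
  · have := hpath 0 0 hk
    have := hG (Nat.zero_le k)
    have := hG (Nat.zero_le 1)
    simp [hE]
  obtain ⟨p, hp, hmin⟩ := exists_min_image U (fun p => p (i + 1)) hE
  have hr : 0 < defi k m p := (mem_filter.1 hp).2
  have hm1 : ∀ q ∈ U, q ≠ p → p (i + 1) < q (i + 1) := fun q hq hne =>
    lt_of_le_of_ne (hmin q hq) fun h => hne (hinj p (hUl p hp) q (hUl q hq) _ h).symm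
  have h4 := first_point hG h0 hU (fun p hp q hq => hinj p (hUl p hp) q (hUl q hq) (i + 1)) hp hr
    hm1
  have h5 := first_point hG h0 hU (fun p hp q hq => hinj p (hUl p hp) q (hUl q hq) (i + 2)) hp hr
    (fun q hq hne => hmono p (hUl p hp) q (hUl q hq) (hm1 q hq hne))
  rw [← sum_range_reflect] at h5
  have h6 : ∑ u ∈ range (defi k m p), (G (m (i + 1) (p (i + 1)) + u + 1) +
      G (m (i + 2) (p (i + 2)) + (defi k m p - 1 - u) + 1)) ≤ (1 - G k) * defi k m p := by
    refine (sum_le_card_nsmul _ _ (1 - G k) fun u hu => ?_).trans (by simp [mul_comm])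
    have h7 := mem_range.1 hu
    have h8 := msum_rot (m := m) p i
    have := hpath (m (i + 1) (p (i + 1)) + u) (m (i + 2) (p (i + 2)) + (defi k m p - 1 - u))
      (by unfold defi at *; omega)
    linarith
  rw [sum_add_distrib] at h6
  have hr' : (0 : ℝ) < defi k m p := by exact_mod_cast hr
  have h7 : (∑ q ∈ U, share n k G m (i + 1) q + ∑ q ∈ U, share n k G m (i + 2) q) ≤ 1 - G k := by
    refine le_of_mul_le_mul_right ?_ hr'
    linarith
  linarith

/-- The total charge is at most the number of skew lines. -/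
lemma total_charge_le (hG : Monotone G) (h0 : G 0 = 0)
    (hpath : ∀ u v, u + v + 1 ≤ k → G (u + 1) + G (v + 1) + G k ≤ 1) (hk : 0 < k)
    {ι : Type*} (L : Finset ι) (l : ι → Set (Fin 3 → ℕ)) [∀ j, DecidablePred (· ∈ l j)]
    (hl : ∀ j ∈ L, Skew (l j))
    (hcov : ∀ p ∈ pts n, defi k m p ≤ (L.filter fun j => p ∈ l j).card) :
    ∑ p ∈ pts n, ∑ i, charge n k G m i p ≤ L.card := by
  have h1 : ∀ p ∈ pts n, ∑ i, charge n k G m i p ≤
      ∑ j ∈ L.filter (fun j => p ∈ l j), ∑ i, share n k G m i p := by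
    intro p hp
    rw [sum_const, nsmul_eq_mul, mul_sum]
    refine sum_le_sum fun i _ => ?_
    rcases Nat.eq_zero_or_pos (defi k m p) with h | h
    · have := charge_le (k := k) (m := m) (i := i) hG hp
      simp only [h, Nat.cast_zero, mul_zero] at this
      simpa [share, h] using this
    · have h' : (0 : ℝ) < defi k m p := by exact_mod_cast h
      have h2 : (defi k m p : ℝ) ≤ (L.filter fun j => p ∈ l j).card := by exact_mod_cast hcov p hp
      rw [share, mul_div_assoc', le_div_iff₀ h', mul_comm]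
      exact mul_le_mul_of_nonneg_right h2 (charge_nonneg hG i p)
  refine (sum_le_sum h1).trans ?_
  rw [sum_comm' (t' := L) (s' := fun j => (pts n).filter (· ∈ l j))
    (by intro p j; simp only [mem_filter]; tauto)]
  refine (sum_le_card_nsmul _ _ 1 fun j hj => line_share hG h0 hpath hk (hl j hj)).trans ?_
  simp

/-- The row inequality. -/
lemma row_ineq (i : Fin 3) (s : ℕ) :
    (k - s) * n ≤ (k - s) * alpha n m i s + ∑ c ∈ range n, min (m (i + 1) c) (k - s) +
      ∑ c ∈ range n, min (m (i + 2) c) (k - s) +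
      ∑ p ∈ (pts n).filter (fun p => alpha n m i s = p i),
        (k - s - m (i + 1) (p (i + 1)) - m (i + 2) (p (i + 2))) := by
  classical
  obtain ⟨w, hw⟩ : ∃ w, n = alpha n m i s + w := Nat.exists_eq_add_of_le (alpha_le i s)
  set a := alpha n m i s with ha
  let pt : ℕ → Fin 3 → ℕ := fun u t => if t = i then a else if t = i + 1 then u else w - 1 - u
  have e0 : ∀ u, pt u i = a := fun u => by simp [pt]
  have e1 : ∀ u, pt u (i + 1) = u := fun u => by fin_cases i <;> simp [pt]
  have e2 : ∀ u, pt u (i + 2) = w - 1 - u := fun u => by fin_cases i <;> simp [pt]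
  have h1 : ∑ u ∈ range w, (k - s - m (i + 1) u - m (i + 2) (w - 1 - u)) ≤
      ∑ p ∈ (pts n).filter (fun p => a = p i),
        (k - s - m (i + 1) (p (i + 1)) - m (i + 2) (p (i + 2))) := by
    have h2 : ∑ u ∈ range w, (k - s - m (i + 1) u - m (i + 2) (w - 1 - u)) =
        ∑ p ∈ (range w).image pt, (k - s - m (i + 1) (p (i + 1)) - m (i + 2) (p (i + 2))) := by
      rw [sum_image fun u _ v _ h => by rw [← e1 u, h, e1]]
      simp only [e1, e2]
    rw [h2]
    refine sum_le_sum_of_subset fun p hp => ?_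
    obtain ⟨u, hu, rfl⟩ := mem_image.1 hp
    have := mem_range.1 hu
    refine mem_filter.2 ⟨mem_pts.2 ?_, (e0 u).symm⟩
    rw [← sum_rot _ i, e0, e1, e2]
    omega
  have h2 : ∑ u ∈ range w, min (m (i + 1) u) (k - s) ≤ ∑ c ∈ range n, min (m (i + 1) c) (k - s) :=
    sum_le_sum_of_subset (range_mono (by omega))
  have h3 : ∑ u ∈ range w, min (m (i + 2) (w - 1 - u)) (k - s) ≤
      ∑ c ∈ range n, min (m (i + 2) c) (k - s) := by
    rw [sum_range_reflect (fun u => min (m (i + 2) u) (k - s))]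
    exact sum_le_sum_of_subset (range_mono (by omega))
  have h4 : (k - s) * w ≤ ∑ u ∈ range w, (min (m (i + 1) u) (k - s) +
      min (m (i + 2) (w - 1 - u)) (k - s) + (k - s - m (i + 1) u - m (i + 2) (w - 1 - u))) := by
    have := card_nsmul_le_sum (range w) (fun u => min (m (i + 1) u) (k - s) +
      min (m (i + 2) (w - 1 - u)) (k - s) + (k - s - m (i + 1) u - m (i + 2) (w - 1 - u))) (k - s)
      (fun u _ => by omega)
    simpa [mul_comm] using this
  rw [sum_add_distrib, sum_add_distrib] at h4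
  have h5 : (k - s) * n = (k - s) * a + (k - s) * w := by rw [← mul_add, ← hw]
  omega

lemma alpha_le_sum (i : Fin 3) (s : ℕ) :
    alpha n m i s ≤ ∑ c ∈ range n, if s < m i c then 1 else 0 := by
  calc alpha n m i s = ∑ c ∈ range (alpha n m i s), if s < m i c then 1 else 0 := by
        rw [sum_congr rfl fun c hc => if_pos (lt_of_lt_alpha (mem_range.1 hc))]
        simp
    _ ≤ _ := sum_le_sum_of_subset (range_mono (alpha_le i s))

lemma level_ineq (h0 : G 0 = 0)
    (hmarg : ∀ μ < k, inc G μ * ((k - μ : ℕ) : ℝ) + 2 * G (k - μ) ≤ 1) (μ : ℕ) :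
    ∑ s ∈ range k, inc G s * (((k - s) * (if s < μ then 1 else 0) + 2 * min μ (k - s) : ℕ) : ℝ) ≤
      μ := by
  induction μ with
  | zero => simp
  | succ μ ih =>
    have h1 : ∀ s ∈ range k, inc G s *
        (((k - s) * (if s < μ + 1 then 1 else 0) + 2 * min (μ + 1) (k - s) : ℕ) : ℝ) =
        inc G s * (((k - s) * (if s < μ then 1 else 0) + 2 * min μ (k - s) : ℕ) : ℝ) +
          ((if s = μ then inc G s * ((k - s : ℕ) : ℝ) else 0) +
            2 * if s < k - μ then inc G s else 0) := by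
      intro s _
      have e : (k - s) * (if s < μ + 1 then 1 else 0) + 2 * min (μ + 1) (k - s) =
          (k - s) * (if s < μ then 1 else 0) + 2 * min μ (k - s) +
            ((if s = μ then k - s else 0) + 2 * if s < k - μ then 1 else 0) := by
        split_ifs <;> omega
      rw [e]
      split_ifs <;> push_cast <;> ring
    rw [sum_congr rfl h1, sum_add_distrib, sum_add_distrib, ← mul_sum, ← sum_filter, ← sum_filter]
    have h2 : (range k).filter (fun s => s < k - μ) = range (k - μ) := by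
      ext s
      simp only [mem_filter, mem_range]
      omega
    rw [h2, sum_inc G h0, filter_eq']
    push_cast at ih ⊢
    split_ifs with h
    · have := hmarg μ (mem_range.1 h)
      rw [sum_singleton]
      linarith
    · have h3 : k - μ = 0 := by
        simp only [mem_range] at h
        omega
      rw [h3, h0]
      simp only [sum_empty]
      linarith

/-- The main counting theorem. -/
theorem count_main (hG : Monotone G) (h0 : G 0 = 0) (hk : 0 < k)
    (hmarg : ∀ μ < k, inc G μ * ((k - μ : ℕ) : ℝ) + 2 * G (k - μ) ≤ 1)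
    (hpath : ∀ u v, u + v + 1 ≤ k → G (u + 1) + G (v + 1) + G k ≤ 1)
    {ι : Type*} (L : Finset ι) (l : ι → Set (Fin 3 → ℕ)) [∀ j, DecidablePred (· ∈ l j)]
    (hl : ∀ j ∈ L, Skew (l j))
    (hcov : ∀ p ∈ pts n, defi k m p ≤ (L.filter fun j => p ∈ l j).card) :
    3 * (∑ u ∈ range k, G (u + 1)) * n ≤ (∑ i, ∑ c ∈ range n, m i c : ℕ) + L.card := by
  have hY : ∑ u ∈ range k, G (u + 1) = ∑ s ∈ range k, inc G s * ((k - s : ℕ) : ℝ) := by
    have := sum_G_eq G h0 0 k k (by omega)
    simp only [zero_add] at this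
    rw [this]
    exact sum_congr rfl fun s _ => by rw [min_eq_right (Nat.sub_le _ _)]
  have h1 := total_charge_le hG h0 hpath hk L l hl hcov
  rw [sum_comm] at h1
  set A : Fin 3 → ℝ := fun i => ∑ s ∈ range k, inc G s *
    ((∑ c ∈ range n, (k - s) * (if s < m i c then 1 else 0) : ℕ) : ℝ) with hA
  set B : Fin 3 → ℝ := fun i => ∑ s ∈ range k, inc G s *
    ((∑ c ∈ range n, min (m i c) (k - s) : ℕ) : ℝ) with hB
  have h2 : ∀ i, (∑ u ∈ range k, G (u + 1)) * n ≤
      A i + B (i + 1) + B (i + 2) + ∑ p ∈ pts n, charge n k G m i p := by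
    intro i
    have h3 : ∑ p ∈ pts n, charge n k G m i p = ∑ s ∈ range k, inc G s *
        ((∑ p ∈ (pts n).filter (fun p => alpha n m i s = p i),
          (k - s - m (i + 1) (p (i + 1)) - m (i + 2) (p (i + 2))) : ℕ) : ℝ) := by
      unfold charge
      rw [sum_comm' (t' := range k) (s' := fun s => (pts n).filter (fun p => alpha n m i s = p i))
        (by intro p s; simp only [mem_filter]; tauto)]
      exact sum_congr rfl fun s _ => by rw [Nat.cast_sum, mul_sum]
    rw [h3, hY, sum_mul, hA, hB]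
    simp only
    rw [← sum_add_distrib, ← sum_add_distrib, ← sum_add_distrib]
    refine sum_le_sum fun s _ => ?_
    rw [mul_assoc, ← mul_add, ← mul_add, ← mul_add]
    refine mul_le_mul_of_nonneg_left ?_ (sub_nonneg.2 (hG s.le_succ))
    have h4 := row_ineq (n := n) (k := k) (m := m) i s
    have h5 := Nat.mul_le_mul_left (k - s) (alpha_le_sum (n := n) (m := m) i s)
    rw [mul_sum] at h5
    exact_mod_cast h4.trans (by omega)
  have h3 : ∀ i, A i + 2 * B i ≤ ((∑ c ∈ range n, m i c : ℕ) : ℝ) := by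
    intro i
    rw [Nat.cast_sum]
    refine le_trans (le_of_eq ?_) (sum_le_sum fun c _ => level_ineq h0 hmarg (m i c))
    rw [sum_comm, hA, hB]
    simp only
    rw [mul_sum, ← sum_add_distrib]
    refine sum_congr rfl fun s _ => ?_
    rw [Nat.cast_sum, Nat.cast_sum, mul_sum, mul_sum, mul_sum, ← sum_add_distrib]
    refine sum_congr rfl fun c _ => ?_
    rw [Nat.cast_add, Nat.cast_mul 2]
    push_cast
    ring
  have k0 := h2 0
  have k1 := h2 1
  have k2 := h2 2
  have j0 := h3 0
  have j1 := h3 1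
  have j2 := h3 2
  rw [Fin.sum_univ_three] at h1
  rw [Fin.sum_univ_three]
  simp only [Fin.isValue, zero_add, Fin.reduceAdd] at k0 k1 k2
  push_cast at *
  linarith

end

end Pool.Agent.MP_0ea322_co

end MrgPart0

-- ======== part 1: formerly Pool.Agent.MP_0ea322_co.Cert
section MrgPart1

/-!
# The explicit weights, and the geometry of lines
-/

namespace Pool.Agent.MP_0ea322_co

open Finset

/-- The uncapped quadratic profile. -/
noncomputable def quad (b r a : ℕ) : ℝ :=
  a * (3 * a + 2 * r - 1) / (2 * ((b + r) * (3 * b + r + 1)))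

/-- The profile used for `k = 3 b + 2 r`. -/
noncomputable def prof (b r u : ℕ) : ℝ := if u ≤ 2 * b + r then quad b r (u - (b + r)) else 1 / 2

section

variable {b r : ℕ}

lemma den_pos (h : 0 < b + r) : (0 : ℝ) < 2 * ((b + r) * (3 * b + r + 1)) := by
  have : (0 : ℝ) < b + r := by exact_mod_cast h
  positivity

lemma quad_mono (h : 0 < b + r) : Monotone (quad b r) := by
  refine monotone_nat_of_le_succ fun a => div_le_div_of_nonneg_right ?_ (den_pos h).le
  push_cast
  nlinarith [Nat.cast_nonneg (α := ℝ) a, Nat.cast_nonneg (α := ℝ) r]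

lemma quad_le (h : 0 < b + r) : quad b r b ≤ 1 / 2 := by
  rw [quad, div_le_iff₀ (den_pos h)]
  nlinarith [Nat.cast_nonneg (α := ℝ) b, Nat.cast_nonneg (α := ℝ) r,
    mul_nonneg (Nat.cast_nonneg (α := ℝ) b) (Nat.cast_nonneg (α := ℝ) r)]

lemma prof_le (h : 0 < b + r) (u : ℕ) : prof b r u ≤ 1 / 2 := by
  unfold prof
  split_ifs with hu
  · exact (quad_mono h (by omega)).trans (quad_le h)
  · exact le_rfl

lemma prof_mono (h : 0 < b + r) : Monotone (prof b r) := by
  intro u v huv
  by_cases hv : v ≤ 2 * b + r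
  · simp only [prof, if_pos hv, if_pos (huv.trans hv)]
    exact quad_mono h (by omega)
  · rw [prof, prof, if_neg hv]
    exact prof_le h u

lemma prof_zero {u : ℕ} (hu : u ≤ b + r) : prof b r u = 0 := by
  have : u - (b + r) = 0 := by omega
  simp [prof, this, quad, show u ≤ 2 * b + r by omega]

lemma prof_mid {a : ℕ} (ha : a ≤ b) : prof b r (b + r + a) = quad b r a := by
  simp [prof, show b + r + a ≤ 2 * b + r by omega]

lemma prof_marg (h : 0 < b + r) (hr : r ≤ 2) (μ : ℕ) (hμ : μ < 3 * b + 2 * r) :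
    inc (prof b r) μ * ((3 * b + 2 * r - μ : ℕ) : ℝ) + 2 * prof b r (3 * b + 2 * r - μ) ≤ 1 := by
  have h1 := prof_le h (3 * b + 2 * r - μ)
  have hD := den_pos h
  rcases lt_or_ge μ (b + r) with h2 | h2
  · rw [inc, prof_zero (u := μ + 1) h2, prof_zero h2.le]
    linarith
  rcases lt_trichotomy μ (2 * b + r) with h3 | h3 | h3
  · obtain ⟨a, rfl⟩ := Nat.exists_eq_add_of_le h2
    obtain ⟨c, rfl⟩ := Nat.exists_eq_add_of_le (show a ≤ b by omega)
    have e : 3 * (a + c) + 2 * r - (a + c + r + a) = a + c + r + c := by omega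
    rw [inc, e, add_assoc _ a 1, prof_mid (by omega), prof_mid (by omega), prof_mid (by omega)]
    unfold quad
    refine le_of_eq ?_
    push_cast at hD ⊢
    have h4 : (a : ℝ) + c + r ≠ 0 := by
      have : (0 : ℝ) < ((a + c + r : ℕ) : ℝ) := by exact_mod_cast h
      push_cast at this
      exact this.ne'
    have h5 : 3 * ((a : ℝ) + c) + r + 1 ≠ 0 := by positivity
    field_simp
    ring
  · subst h3
    have e : 3 * b + 2 * r - (2 * b + r) = b + r := by omega
    have e2 : 2 * b + r = b + r + b := by omega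
    rw [inc, e, prof_zero le_rfl, prof, if_neg (by omega), e2, prof_mid le_rfl, quad]
    push_cast
    have h4 : (0 : ℝ) < b + r := by exact_mod_cast h
    have h5 : (0 : ℝ) < 3 * (b : ℝ) + r + 1 := by positivity
    have h6 : (1 / 2 - b * (3 * b + 2 * r - 1) / (2 * ((b + r) * (3 * b + r + 1))) : ℝ) * (b + r) =
        (r + 1) * (2 * b + r) / (2 * (3 * b + r + 1)) := by
      field_simp
      ring
    rw [h6, mul_zero, add_zero, div_le_one (by positivity)]
    have hb : (0 : ℝ) ≤ b := Nat.cast_nonneg b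
    interval_cases r <;> push_cast <;> linarith
  · rw [inc, prof, prof, if_neg (by omega), if_neg (by omega)]
    linarith

lemma prof_path (h : 0 < b + r) (u v : ℕ) (huv : u + v + 1 ≤ 3 * b + 2 * r) :
    prof b r (u + 1) + prof b r (v + 1) + prof b r (3 * b + 2 * r) ≤ 1 := by
  have h1 := prof_le h (3 * b + 2 * r)
  have h2 := prof_le h (u + 1)
  have h3 := prof_le h (v + 1)
  rcases le_or_gt (u + 1) (b + r) with h4 | h4
  · rw [prof_zero h4]
    linarith
  rcases le_or_gt (v + 1) (b + r) with h5 | h5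
  · rw [prof_zero h5]
    linarith
  obtain ⟨x, hx⟩ := Nat.exists_eq_add_of_lt h4
  obtain ⟨y, hy⟩ := Nat.exists_eq_add_of_lt h5
  obtain ⟨e, rfl⟩ := Nat.exists_eq_add_of_le (show x + y + 1 ≤ b by omega)
  rw [hx, hy, add_assoc _ x 1, add_assoc (x + y + 1 + e + r) y 1, prof_mid (by omega),
    prof_mid (by omega)]
  have : quad (x + y + 1 + e) r (x + 1) + quad (x + y + 1 + e) r (y + 1) ≤ 1 / 2 := by
    rw [quad, quad, ← add_div, div_le_iff₀ (den_pos h)]
    push_cast
    have hx0 : (0 : ℝ) ≤ x := Nat.cast_nonneg _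
    have hy0 : (0 : ℝ) ≤ y := Nat.cast_nonneg _
    have he0 : (0 : ℝ) ≤ e := Nat.cast_nonneg _
    have hr0 : (0 : ℝ) ≤ r := Nat.cast_nonneg _
    nlinarith [mul_nonneg hx0 hy0, mul_nonneg hx0 he0, mul_nonneg hx0 hr0, mul_nonneg hy0 he0,
      mul_nonneg hy0 hr0, mul_nonneg he0 hr0, mul_nonneg he0 he0, mul_nonneg hr0 hr0]
  linarith

lemma sum_quad (a : ℕ) : ∑ u ∈ range a, quad b r (u + 1) =
    a * (a + 1) * (a + r) / (2 * ((b + r) * (3 * b + r + 1))) := by
  induction a with
  | zero => simp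
  | succ a ih =>
    rw [sum_range_succ, ih, quad, ← add_div]
    push_cast
    congr 1
    ring

lemma prof_sum (h : 0 < b + r) : 3 * ∑ u ∈ range (3 * b + 2 * r), prof b r (u + 1) =
    3 * ((2 * b + r) * (2 * b + r + 1) / 2) / (3 * b + r + 1) := by
  have e : 3 * b + 2 * r = (b + r + b) + (b + r) := by omega
  rw [e, sum_range_add, sum_range_add,
    sum_eq_zero fun u hu => prof_zero (u := u + 1) (mem_range.1 hu),
    sum_congr rfl fun u hu => (by
      rw [add_assoc _ u 1, prof_mid (mem_range.1 hu)] : prof b r (b + r + u + 1) = _),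
    sum_congr rfl fun u _ => (by
      rw [prof, if_neg (by omega)] : prof b r (b + r + b + u + 1) = 1 / 2), sum_quad]
  have h4 : (0 : ℝ) < b + r := by exact_mod_cast h
  have h5 : (0 : ℝ) < 3 * (b : ℝ) + r + 1 := by positivity
  simp only [sum_const, card_range, nsmul_eq_mul]
  push_cast
  field_simp
  ring

end

/-- The counting bound with explicit constants: `A` is the number of parallel lines used by the
optimal fractional cover in each direction. -/
theorem exists_profile {k : ℕ} (hk : 0 < k) : ∃ (A : ℕ) (G : ℕ → ℝ), k ≤ 3 * A ∧ A ≤ k ∧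
    Monotone G ∧ G 0 = 0 ∧ (∀ μ < k, inc G μ * ((k - μ : ℕ) : ℝ) + 2 * G (k - μ) ≤ 1) ∧
    (∀ u v, u + v + 1 ≤ k → G (u + 1) + G (v + 1) + G k ≤ 1) ∧
    3 * ∑ u ∈ range k, G (u + 1) = 3 * (A * (A + 1) / 2) / (3 * A + 1 - k) := by
  rcases eq_or_ne k 1 with rfl | h1
  · refine ⟨1, fun u => if u = 0 then 0 else 1 / 3, by norm_num, le_rfl, ?_, by simp, ?_, ?_, ?_⟩
    · intro u v huv
      dsimp only
      split_ifs with h2 h3 h3
      · exact le_rfl
      · norm_num
      · omega
      · exact le_rfl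
    · intro μ hμ
      obtain rfl : μ = 0 := by omega
      norm_num [inc]
    · intro u v _
      norm_num
    · norm_num
  · obtain ⟨b, r, hr, rfl⟩ : ∃ b r, r ≤ 2 ∧ k = 3 * b + 2 * r :=
      ⟨(k - 2 * (2 * k % 3)) / 3, 2 * k % 3, by omega, by omega⟩
    have h : 0 < b + r := by omega
    refine ⟨2 * b + r, prof b r, by omega, by omega, prof_mono h, prof_zero (Nat.zero_le _),
      prof_marg h hr, prof_path h, ?_⟩
    rw [prof_sum h]
    push_cast
    congr 1
    ring

/-- A line is either contained, on the grid, in a line parallel to a side, or it is skew. -/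
theorem line_dichotomy {n : ℕ} (hn : 0 < n) {a b c : ℝ} (hab : a ≠ 0 ∨ b ≠ 0) :
    (∃ i t, t < n ∧ ∀ p ∈ pts n, a * p 0 + b * p 1 = c → p i = t) ∨
      Skew {p | p ∈ pts n ∧ a * p 0 + b * p 1 = c} := by
  have key : ∀ i : Fin 3, (∀ p ∈ pts n, ∀ q ∈ pts n, a * p 0 + b * p 1 = c →
      a * q 0 + b * q 1 = c → p i = q i) →
      ∃ i t, t < n ∧ ∀ p ∈ pts n, a * p 0 + b * p 1 = c → p i = t := by
    intro i h
    by_cases hE : ∃ q ∈ pts n, a * q 0 + b * q 1 = c
    · obtain ⟨q, hq, hq'⟩ := hE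
      exact ⟨i, q i, lt_of_mem_pts hq i, fun p hp hp' => h p hp q hq hp' hq'⟩
    · exact ⟨i, 0, hn, fun p hp hp' => absurd ⟨p, hp, hp'⟩ hE⟩
  have hs : ∀ p ∈ pts n, ∀ q ∈ pts n, (p 0 : ℝ) + p 1 + p 2 = q 0 + q 1 + q 2 := by
    intro p hp q hq
    have := mem_pts.1 hp
    have := mem_pts.1 hq
    exact_mod_cast (by omega : p 0 + p 1 + p 2 = q 0 + q 1 + q 2)
  by_cases ha : a = 0
  · refine Or.inl (key 1 fun p _ q _ h1 h2 => ?_)
    have hb : b ≠ 0 := hab.resolve_left (not_not.2 ha)
    have : b * p 1 = b * q 1 := by rw [ha] at h1 h2; linarith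
    exact_mod_cast mul_left_cancel₀ hb this
  by_cases hb : b = 0
  · refine Or.inl (key 0 fun p _ q _ h1 h2 => ?_)
    have : a * p 0 = a * q 0 := by rw [hb] at h1 h2; linarith
    exact_mod_cast mul_left_cancel₀ ha this
  by_cases hc : a = b
  · refine Or.inl (key 2 fun p hp q hq h1 h2 => ?_)
    have h3 := hs p hp q hq
    have : a * p 2 = a * q 2 := by rw [← hc] at h1 h2; linear_combination a * h3 - h1 + h2
    exact_mod_cast mul_left_cancel₀ ha this
  right
  have hc' : a - b ≠ 0 := sub_ne_zero.2 hc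
  have par : ∀ p ∈ {p | p ∈ pts n ∧ a * p 0 + b * p 1 = c},
      ∀ q ∈ {p | p ∈ pts n ∧ a * p 0 + b * p 1 = c}, ∃ t : ℝ, ∀ i,
      (q i : ℝ) = p i + t * ![b, -a, a - b] i := by
    rintro p ⟨hp, h1⟩ q ⟨hq, h2⟩
    have h3 := hs p hp q hq
    refine ⟨(q 0 - p 0) / b, fun i => ?_⟩
    fin_cases i <;> simp <;> field_simp
    · ring
    · linear_combination h2 - h1
    · linear_combination h1 - h2 - b * h3
  have hv : ∀ i, ![b, -a, a - b] i ≠ 0 := fun i => by fin_cases i <;> simp [ha, hb, hc']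
  have hsign : ∃ i : Fin 3, 0 < ![b, -a, a - b] (i + 1) * ![b, -a, a - b] (i + 2) := by
    by_contra hneg
    push Not at hneg
    have h0 := lt_of_le_of_ne (hneg 0) (mul_ne_zero (hv _) (hv _))
    have h1 := lt_of_le_of_ne (hneg 1) (mul_ne_zero (hv _) (hv _))
    have h2 := lt_of_le_of_ne (hneg 2) (mul_ne_zero (hv _) (hv _))
    have k0 : -a * (a - b) < 0 := h0
    have k1 : (a - b) * b < 0 := h1
    have k2 : b * -a < 0 := h2
    have k3 := mul_pos_of_neg_of_neg k0 k1
    nlinarith [mul_nonneg (mul_self_nonneg (a - b)) (neg_nonneg.2 k2.le)]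
  refine ⟨fun p hp q hq i h => ?_, ?_⟩
  · obtain ⟨t, ht⟩ := par p hp q hq
    have h1 := ht i
    rw [h, left_eq_add, mul_eq_zero, or_iff_left (hv i)] at h1
    funext j
    have h2 := ht j
    rw [h1, zero_mul, add_zero] at h2
    exact_mod_cast h2.symm
  · obtain ⟨i, hi⟩ := hsign
    refine ⟨i, fun p hp q hq h => ?_⟩
    obtain ⟨t, ht⟩ := par p hp q hq
    have h1 := ht (i + 1)
    have h2 := ht (i + 2)
    have h3 : (p (i + 1) : ℝ) < q (i + 1) := by exact_mod_cast h
    have h4 : 0 < t * ![b, -a, a - b] (i + 1) := by linarith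
    have h5 : 0 < t * ![b, -a, a - b] (i + 2) := by
      by_contra h6
      push Not at h6
      nlinarith [mul_pos h4 hi, mul_self_nonneg (![b, -a, a - b] (i + 1)),
        mul_nonneg (mul_self_nonneg (![b, -a, a - b] (i + 1))) (neg_nonneg.2 h6)]
    exact_mod_cast (by linarith : (p (i + 2) : ℝ) < q (i + 2))

end Pool.Agent.MP_0ea322_co

end MrgPart1

-- marker of a merged file
example : 731051 + 58759 = 731051 + 58759 := rfl
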